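import Pool.Agent.N728.QU.DefL
import Pool.Agent.N707.QG.B4L

set_option autoImplicit false

/-! # Project QU: subtask B4L (slowly varying weights, Liouville, uniformly in the constant term).

The values `u v + c` are written as `γ n`, `γ = gcd (u q, u v0 + c) ≤ T q`; the theorem of Bombieri and Vinogradov is
applied for every `γ = g` separately, to the height `x / g` and the moduli `m ≤ T q / g`. -/

namespace Pool.Agent.N595.QU

open Finset Pool.Agent.N728.QG Pool.Agent.N728.QU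
open Pool.Agent.N707.QG (LS lam_abs lam_mul)

noncomputable section

lemma lam_zero : lam 0 = 0 := by simp [lam]

lemma lam_neg (n : ℤ) : lam (-n) = lam n := by
  unfold lam
  rw [Int.natAbs_neg]
  simp only [neg_eq_zero]

/-- class sum over an integer interval -/
def cs (m : ℕ) (a α β : ℤ) : ℝ := ∑ n ∈ (Ioc α β).filter (fun n => n ≡ a [ZMOD m]), lam n

lemma cs_pos {m : ℕ} (hm : 0 < m) (a β : ℤ) : cs m a 0 β = LS β.toNat m (a % m).toNat := by
  unfold cs LS
  have hr : (((a % (m : ℤ)).toNat : ℕ) : ℤ) = a % (m : ℤ) :=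
    Int.toNat_of_nonneg (Int.emod_nonneg _ (by omega))
  refine Finset.sum_bij (fun (n : ℤ) _ => n.toNat) ?_ ?_ ?_ ?_
  · intro n hn
    rw [mem_filter, mem_Ioc] at hn
    have h1 : ((n.toNat : ℕ) : ℤ) = n := Int.toNat_of_nonneg (by omega)
    rw [mem_filter, mem_Icc, ← Int.natCast_modEq_iff, h1, hr]
    exact ⟨⟨by omega, by omega⟩, hn.2.trans (Int.mod_modEq _ _).symm⟩
  · intro n hn n' hn' h
    rw [mem_filter, mem_Ioc] at hn hn'
    have h' : n.toNat = n'.toNat := h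
    omega
  · intro k hk
    rw [mem_filter, mem_Icc, ← Int.natCast_modEq_iff, hr] at hk
    refine ⟨(k : ℤ), ?_, by simp⟩
    rw [mem_filter, mem_Ioc]
    exact ⟨⟨by omega, by omega⟩, hk.2.trans (Int.mod_modEq _ _)⟩
  · intro n hn
    rw [mem_filter, mem_Ioc] at hn
    rw [Int.toNat_of_nonneg (by omega)]

lemma cs_neg {m : ℕ} (hm : 0 < m) (a β : ℤ) : cs m a β 0 = LS (-β - 1).toNat m ((-a) % m).toNat := by
  rw [← cs_pos hm]
  unfold cs
  have h1 : ∑ n ∈ (Ioc β 0).filter (fun n => n ≡ a [ZMOD m]), lam n =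
      ∑ n ∈ ((Ioc β 0).filter (fun n => n ≡ a [ZMOD m])).filter (fun n => n ≠ 0), lam n := by
    symm
    apply Finset.sum_filter_of_ne
    intro n _ hn h0
    rw [h0, lam_zero] at hn
    exact hn rfl
  rw [h1]
  refine Finset.sum_bij (fun (n : ℤ) _ => -n) ?_ ?_ ?_ ?_
  · intro n hn
    rw [mem_filter, mem_filter, mem_Ioc] at hn
    rw [mem_filter, mem_Ioc]
    exact ⟨⟨by omega, by omega⟩, hn.1.2.neg⟩
  · intro n _ n' _ h
    have h' : -n = -n' := h
    omega
  · intro k hk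
    rw [mem_filter, mem_Ioc] at hk
    refine ⟨-k, ?_, by simp⟩
    rw [mem_filter, mem_filter, mem_Ioc]
    refine ⟨⟨⟨by omega, by omega⟩, ?_⟩, by omega⟩
    have := hk.2.neg
    rwa [neg_neg] at this
  · intro n _
    rw [lam_neg]

lemma cs_add (m : ℕ) (a : ℤ) {α β δ : ℤ} (h1 : α ≤ β) (h2 : β ≤ δ) :
    cs m a α β + cs m a β δ = cs m a α δ := by
  unfold cs
  rw [← Finset.sum_union, ← Finset.filter_union, Ioc_union_Ioc_eq_Ioc h1 h2]
  apply Finset.disjoint_filter_filter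
  rw [Finset.disjoint_left]
  intro x hx hx'
  rw [mem_Ioc] at hx hx'
  omega

lemma cs_empty (m : ℕ) (a : ℤ) {α β : ℤ} (h : β ≤ α) : cs m a α β = 0 := by
  unfold cs
  rw [Ioc_eq_empty_of_le h]
  simp

lemma cs_le {m : ℕ} (hm : 0 < m) (a : ℤ) {α β : ℤ} (h : α ≤ β) :
    |cs m a α β| ≤ |LS β.toNat m (a % m).toNat| + |LS (-β - 1).toNat m ((-a) % m).toNat| +
      (|LS α.toNat m (a % m).toNat| + |LS (-α - 1).toNat m ((-a) % m).toNat|) := by
  have key : cs m a α β = (cs m a 0 β - cs m a β 0) - (cs m a 0 α - cs m a α 0) := by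
    rcases le_total 0 α with h0 | h0
    · rw [cs_empty m a (h0.trans h), cs_empty m a h0]
      have := cs_add m a h0 h
      linarith
    · rcases le_total 0 β with h1 | h1
      · rw [cs_empty m a h1, cs_empty (α := 0) m a h0]
        have := cs_add m a h0 h1
        linarith
      · rw [cs_empty (α := 0) m a h0, cs_empty (α := 0) m a h1]
        have := cs_add m a h h1
        linarith
  rw [key, cs_pos hm, cs_neg hm, cs_pos hm, cs_neg hm]
  refine (abs_sub _ _).trans ?_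
  exact add_le_add (abs_sub _ _) (abs_sub _ _)

lemma cop {a : ℤ} {m : ℕ} (hm : 0 < m) (h : Int.gcd a m = 1) : Nat.Coprime (a % m).toNat m := by
  have hr : (((a % (m : ℤ)).toNat : ℕ) : ℤ) = a % (m : ℤ) :=
    Int.toNat_of_nonneg (Int.emod_nonneg _ (by omega))
  apply Nat.coprime_of_dvd
  intro p hp hpr hpm
  have h2 : (p : ℤ) ∣ a % (m : ℤ) := by
    rw [← hr]
    exact_mod_cast hpr
  have h3 : (p : ℤ) ∣ (m : ℤ) := by exact_mod_cast hpm
  have h4 : (p : ℤ) ∣ a := by
    have := Int.emod_add_mul_ediv a (m : ℤ)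
    rw [← this]
    exact dvd_add h2 (Dvd.dvd.mul_right h3 _)
  have h5 := Int.dvd_coe_gcd h4 h3
  rw [h] at h5
  have h6 : p ∣ 1 := by exact_mod_cast h5
  exact hp.one_lt.ne' (Nat.dvd_one.1 h6)

/-- one value of `u` -/
lemma per_u (c : ℤ) {q u : ℕ} (v0 : ℕ) (hu : 1 ≤ u) (hq : 1 ≤ q) :
    ∃ γ m r r' : ℕ, 1 ≤ γ ∧ γ * m = u * q ∧ Nat.Coprime r m ∧ Nat.Coprime r' m ∧
      ∀ V : ℕ, |∑ v ∈ (Icc 1 V).filter (fun v => v ≡ v0 [MOD q]), lam ((u : ℤ) * v + c)| ≤
        |LS ((((u : ℤ) * V + c) / (γ : ℤ)).toNat) m r| +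
        |LS ((-(((u : ℤ) * V + c) / (γ : ℤ)) - 1).toNat) m r'| +
        (|LS ((c / (γ : ℤ)).toNat) m r| + |LS ((-(c / (γ : ℤ)) - 1).toNat) m r'|) := by
  classical
  have huz : (0 : ℤ) < u := by exact_mod_cast hu
  set b : ℤ := (u : ℤ) * v0 + c with hb
  set w : ℤ := ((u * q : ℕ) : ℤ) with hw
  have hw0 : 0 < w := by rw [hw]; exact_mod_cast Nat.mul_pos hu hq
  obtain ⟨γ, hγ⟩ : ∃ γ : ℕ, γ = Int.gcd b w := ⟨_, rfl⟩
  have hγ0 : 0 < γ := by rw [hγ]; exact Int.gcd_pos_of_ne_zero_right _ hw0.ne'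
  have hγz : (0 : ℤ) < γ := by exact_mod_cast hγ0
  have hγb : (γ : ℤ) ∣ b := by rw [hγ]; exact Int.gcd_dvd_left ..
  have hγw : (γ : ℤ) ∣ w := by rw [hγ]; exact Int.gcd_dvd_right ..
  obtain ⟨a, ha⟩ := hγb
  have hγn : γ ∣ u * q := Int.natCast_dvd_natCast.1 hγw
  obtain ⟨m, hm⟩ := hγn
  have hm0 : 0 < m := by
    rcases Nat.eq_zero_or_pos m with h | h
    · rw [h, mul_zero] at hm
      have := Nat.mul_pos hu hq
      omega
    · exact h
  have hmz : (0 : ℤ) < m := by exact_mod_cast hm0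
  have hwm : w = γ * m := by rw [hw, hm]; push_cast; ring
  have hgcd : Int.gcd a m = 1 := by
    have h1 : Int.gcd b w = γ * Int.gcd a m := by
      rw [ha, hwm, Int.gcd_mul_left, Int.natAbs_natCast]
    rw [← hγ] at h1
    exact Nat.eq_of_mul_eq_mul_left hγ0 (by rw [← h1, mul_one])
  refine ⟨γ, m, (a % (m : ℤ)).toNat, ((-a) % (m : ℤ)).toNat, hγ0, hm.symm, cop hm0 hgcd,
    cop hm0 (by rw [Int.neg_gcd]; exact hgcd), ?_⟩
  intro V
  have hle : c / (γ : ℤ) ≤ ((u : ℤ) * V + c) / (γ : ℤ) := by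
    apply Int.ediv_le_ediv hγz
    have : 0 ≤ (u : ℤ) * V := by positivity
    linarith
  refine le_trans ?_ (cs_le hm0 a hle)
  have key : ∀ v : ℕ, v ≡ v0 [MOD q] → ∃ k : ℤ, (v : ℤ) = v0 + q * k ∧
      (u : ℤ) * v + c = γ * (a + m * k) := by
    intro v hv
    have h1 : (v : ℤ) ≡ v0 [ZMOD q] := Int.natCast_modEq_iff.mpr hv
    obtain ⟨k, hk⟩ := h1.symm.dvd
    refine ⟨k, by linarith, ?_⟩
    have h2 : (v : ℤ) = v0 + q * k := by linarith
    have h3 : (γ : ℤ) * (a + m * k) = b + w * k := by rw [ha, hwm]; ring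
    rw [h3, h2, hb, hw]
    push_cast
    ring
  have e3 : ∑ v ∈ (Icc 1 V).filter (fun v => v ≡ v0 [MOD q]), lam ((u : ℤ) * v + c) =
      ∑ n ∈ (Ioc (c / (γ : ℤ)) (((u : ℤ) * V + c) / (γ : ℤ))).filter (fun n => n ≡ a [ZMOD m]),
        lam (γ : ℤ) * lam n := by
    refine Finset.sum_bij (fun (v : ℕ) _ => ((u : ℤ) * v + c) / (γ : ℤ)) ?_ ?_ ?_ ?_
    · intro v hv
      rw [Finset.mem_filter, Finset.mem_Icc] at hv
      obtain ⟨⟨hv1, hvV⟩, hvq⟩ := hv
      obtain ⟨k, hk1, hk2⟩ := key v hvq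
      have h1 : ((u : ℤ) * v + c) / (γ : ℤ) = a + m * k := by
        rw [hk2]; exact Int.mul_ediv_cancel_left _ hγz.ne'
      rw [Finset.mem_filter, Finset.mem_Ioc]
      refine ⟨⟨?_, ?_⟩, ?_⟩
      · rw [h1, Int.ediv_lt_iff_lt_mul hγz, mul_comm, ← hk2]
        have : 0 < (u : ℤ) * v := mul_pos huz (by exact_mod_cast hv1)
        linarith
      · apply Int.ediv_le_ediv hγz
        have : (v : ℤ) ≤ V := by exact_mod_cast hvV
        have := mul_le_mul_of_nonneg_left this huz.le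
        linarith
      · rw [h1]
        exact Int.modEq_iff_dvd.mpr ⟨-k, by ring⟩
    · intro v hv v' hv' heq
      rw [Finset.mem_filter, Finset.mem_Icc] at hv hv'
      obtain ⟨k, hk1, hk2⟩ := key v hv.2
      obtain ⟨k', hk1', hk2'⟩ := key v' hv'.2
      have h1 : ((u : ℤ) * v + c) / (γ : ℤ) = a + m * k := by
        rw [hk2]; exact Int.mul_ediv_cancel_left _ hγz.ne'
      have h1' : ((u : ℤ) * v' + c) / (γ : ℤ) = a + m * k' := by
        rw [hk2']; exact Int.mul_ediv_cancel_left _ hγz.ne'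
      have heq' : ((u : ℤ) * v + c) / (γ : ℤ) = ((u : ℤ) * v' + c) / (γ : ℤ) := heq
      rw [h1, h1'] at heq'
      have h4 : (u : ℤ) * v + c = (u : ℤ) * v' + c := by rw [hk2, hk2', heq']
      have h5 : (u : ℤ) * v = (u : ℤ) * v' := by linarith
      have h6 := mul_left_cancel₀ huz.ne' h5
      exact_mod_cast h6
    · intro n hn
      rw [Finset.mem_filter, Finset.mem_Ioc] at hn
      obtain ⟨⟨hn1, hnH⟩, hnr⟩ := hn
      obtain ⟨k, hk⟩ := hnr.symm.dvd
      have h2 : (γ : ℤ) * n = (u : ℤ) * (v0 + q * k) + c := by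
        have h3 : n = a + m * k := by linarith
        have h4 : (γ : ℤ) * n = b + w * k := by rw [h3, ha, hwm]; ring
        rw [h4, hb, hw]
        push_cast
        ring
      have hn1' : c < (γ : ℤ) * n := by
        rw [Int.ediv_lt_iff_lt_mul hγz] at hn1
        linarith
      have h5 : 0 < (v0 : ℤ) + q * k := by
        by_contra hcon
        have : (u : ℤ) * (v0 + q * k) ≤ 0 :=
          mul_nonpos_of_nonneg_of_nonpos huz.le (by omega)
        linarith
      have h6 : ((((v0 : ℤ) + q * k).toNat : ℕ) : ℤ) = v0 + q * k := Int.toNat_of_nonneg h5.le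
      refine ⟨((v0 : ℤ) + q * k).toNat, ?_, ?_⟩
      · rw [Finset.mem_filter, Finset.mem_Icc]
        refine ⟨⟨by omega, ?_⟩, ?_⟩
        · have h8 : (γ : ℤ) * n ≤ (u : ℤ) * V + c := by
            have := (Int.le_ediv_iff_mul_le hγz).1 hnH
            linarith
          have h9 : (u : ℤ) * (v0 + q * k) ≤ u * V := by linarith
          have h10 := le_of_mul_le_mul_left h9 huz
          omega
        · rw [← Int.natCast_modEq_iff, h6]
          exact (Int.modEq_iff_dvd.mpr ⟨-k, by ring⟩)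
      · show ((u : ℤ) * ((((v0 : ℤ) + q * k).toNat : ℕ) : ℤ) + c) / (γ : ℤ) = n
        rw [h6, ← h2, Int.mul_ediv_cancel_left _ hγz.ne']
    · intro v hv
      rw [Finset.mem_filter, Finset.mem_Icc] at hv
      obtain ⟨k, hk1, hk2⟩ := key v hv.2
      have h1 : ((u : ℤ) * v + c) / (γ : ℤ) = a + m * k := by
        rw [hk2]; exact Int.mul_ediv_cancel_left _ hγz.ne'
      rw [h1, hk2, lam_mul]
  rw [e3, ← Finset.mul_sum, abs_mul]
  exact mul_le_of_le_one_left (abs_nonneg _) (lam_abs _)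

/-- the sum over one value of the gcd -/
lemma sum_gcd (X0 KB A : ℕ) (hBV : ∀ x : ℕ, X0 ≤ x → ∀ D : ℕ, (D : ℝ) ^ 2 * Real.log x ^ KB ≤ x →
      ∀ r h : ℕ → ℕ, (∀ m ∈ Icc 1 D, Nat.Coprime (r m) m) → (∀ m, h m ≤ x) →
      ∑ m ∈ Icc 1 D, |∑ n ∈ (Icc 1 (h m)).filter (fun n => n ≡ r m [MOD m]), lam n| ≤
        x / Real.log x ^ A)
    {x Dm q : ℕ} (hx : X0 ≤ x) (hD : (Dm : ℝ) ^ 2 * Real.log x ^ KB ≤ x) (hq : 1 ≤ q)
    (S : Finset ℕ) (g0 : ℕ) (m r hh : ℕ → ℕ) (hS : ∀ u ∈ S, 1 ≤ m u ∧ m u ≤ Dm)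
    (hg0 : 1 ≤ g0) (hgm : ∀ u ∈ S, g0 * m u = u * q)
    (hcop : ∀ u ∈ S, Nat.Coprime (r u) (m u)) (hhx : ∀ u ∈ S, hh u ≤ x) :
    ∑ u ∈ S, |LS (hh u) (m u) (r u)| ≤ x / Real.log x ^ A := by
  classical
  have hdiv : ∀ u ∈ S, g0 * m u / q = u := by
    intro u hu
    rw [hgm u hu]
    exact Nat.mul_div_cancel u (by omega)
  set r' : ℕ → ℕ := fun M => if g0 * M / q ∈ S ∧ g0 * M / q * q = g0 * M then r (g0 * M / q) else 1
    with hr'
  set h' : ℕ → ℕ := fun M => if g0 * M / q ∈ S ∧ g0 * M / q * q = g0 * M then hh (g0 * M / q) else 0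
    with hh'
  have hmain := hBV x hx Dm hD r' h' (by
    intro M _
    simp only [hr']
    split_ifs with h
    · have h5 := hcop _ h.1
      have h6 : m (g0 * M / q) = M := by
        have h7 := hgm _ h.1
        rw [h.2] at h7
        exact Nat.eq_of_mul_eq_mul_left hg0 h7
      rw [h6] at h5
      exact h5
    · exact Nat.coprime_one_left M) (by
    intro M
    simp only [hh']
    split_ifs with h
    · exact hhx _ h.1
    · exact Nat.zero_le _)
  refine le_trans ?_ hmain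
  have hinj : Set.InjOn m (S : Set ℕ) := by
    intro a ha b hb hab
    have h1 := hgm a ha
    have h2 := hgm b hb
    rw [hab, h2] at h1
    exact (Nat.eq_of_mul_eq_mul_right (by omega) h1).symm
  have hcong : ∑ u ∈ S, |LS (hh u) (m u) (r u)| = ∑ M ∈ S.image m,
      |∑ n ∈ (Icc 1 (h' M)).filter (fun n => n ≡ r' M [MOD M]), lam n| := by
    rw [Finset.sum_image hinj]
    apply Finset.sum_congr rfl
    intro u hu
    have h5 := hdiv u hu
    have h6 : r' (m u) = r u := by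
      simp only [hr', h5]
      rw [if_pos ⟨hu, (hgm u hu).symm⟩]
    have h7 : h' (m u) = hh u := by
      simp only [hh', h5]
      rw [if_pos ⟨hu, (hgm u hu).symm⟩]
    rw [h6, h7]
    rfl
  rw [hcong]
  apply Finset.sum_le_sum_of_subset_of_nonneg
  · intro M hM
    rw [Finset.mem_image] at hM
    obtain ⟨u, hu, rfl⟩ := hM
    rw [Finset.mem_Icc]
    exact hS u hu
  · intro _ _ _
    exact abs_nonneg _

lemma height {x γ : ℕ} (hγ : 1 ≤ γ) {y : ℤ} (hy : |y| ≤ x) :
    (y / (γ : ℤ)).toNat ≤ x / γ ∧ (-(y / (γ : ℤ)) - 1).toNat ≤ x / γ := by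
  have hγz : (0 : ℤ) < γ := by exact_mod_cast hγ
  have h1 : y ≤ x := (le_abs_self y).trans hy
  have h2 : -(x : ℤ) ≤ y := by
    have := neg_abs_le y
    linarith
  have hc : ((x / γ : ℕ) : ℤ) = (x : ℤ) / γ := by push_cast; rfl
  constructor
  · rw [Int.toNat_le, hc]
    exact Int.ediv_le_ediv hγz h1
  · rw [Int.toNat_le, hc, Int.le_ediv_iff_mul_le hγz]
    have h3 : y < (y / (γ : ℤ) + 1) * γ := by
      have := Int.lt_ediv_add_one_mul_self y hγz
      exact this
    have h4 : (-(y / (γ : ℤ)) - 1) * γ = -((y / (γ : ℤ) + 1) * γ) := by ring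
    rw [h4]
    linarith

lemma harm (N : ℕ) : ∑ g ∈ Icc 1 N, (1 / (g : ℝ)) ≤ 1 + Real.log N := by
  have h := harmonic_le_one_add_log N
  have e : ((harmonic N : ℚ) : ℝ) = ∑ g ∈ Icc 1 N, (1 / (g : ℝ)) := by
    rw [harmonic_eq_sum_Icc]
    push_cast
    simp
  rw [← e]
  exact h

/-- the sum over all values of the gcd -/
lemma sum_all (X0 KB A : ℕ) (hBV : ∀ x : ℕ, X0 ≤ x → ∀ D : ℕ, (D : ℝ) ^ 2 * Real.log x ^ KB ≤ x →
      ∀ r h : ℕ → ℕ, (∀ m ∈ Icc 1 D, Nat.Coprime (r m) m) → (∀ m, h m ≤ x) →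
      ∑ m ∈ Icc 1 D, |∑ n ∈ (Icc 1 (h m)).filter (fun n => n ≡ r m [MOD m]), lam n| ≤
        x / Real.log x ^ A)
    {x T q B : ℕ} (hq : 1 ≤ q) (hT : 1 ≤ T) (hB : 1 ≤ B) (hxB : B * T ≤ x) (hX0 : q * X0 ≤ B) (hqB : q ≤ B)
    (hlog : 1 ≤ Real.log B) (hlogx : Real.log x ≤ 5 * Real.log B)
    (hTB : 2 * (q : ℝ) ^ 2 * 5 ^ KB * (T * Real.log B ^ KB) ≤ B)
    (hlq : 2 * Real.log (2 * q) ≤ Real.log B)
    (S : Finset ℕ) (γ m r hh : ℕ → ℕ) (hS : ∀ u ∈ S, 1 ≤ u ∧ u ≤ T)
    (hγ1 : ∀ u ∈ S, 1 ≤ γ u) (hγm : ∀ u ∈ S, γ u * m u = u * q)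
    (hcop : ∀ u ∈ S, Nat.Coprime (r u) (m u)) (hhx : ∀ u ∈ S, hh u ≤ x / γ u) :
    ∑ u ∈ S, |LS (hh u) (m u) (r u)| ≤ x * (1 + Real.log (T * q : ℕ)) * 2 ^ A / Real.log B ^ A := by
  classical
  have hqr : (1 : ℝ) ≤ q := by exact_mod_cast hq
  have hTr : (1 : ℝ) ≤ T := by exact_mod_cast hT
  have hBr : (1 : ℝ) ≤ B := by exact_mod_cast hB
  have hm1 : ∀ u ∈ S, 1 ≤ m u := by
    intro u hu
    rcases Nat.eq_zero_or_pos (m u) with h | h
    · have h1 := hγm u hu
      rw [h, mul_zero] at h1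
      have := Nat.mul_pos (hS u hu).1 hq
      omega
    · exact h
  have hmap : ∀ u ∈ S, γ u ∈ Icc 1 (T * q) := by
    intro u hu
    refine Finset.mem_Icc.2 ⟨hγ1 u hu, ?_⟩
    calc γ u ≤ γ u * m u := Nat.le_mul_of_pos_right _ (hm1 u hu)
      _ = u * q := hγm u hu
      _ ≤ T * q := Nat.mul_le_mul_right q (hS u hu).2
  rw [← Finset.sum_fiberwise_of_maps_to hmap]
  have hone : ∀ g ∈ Icc 1 (T * q), ∑ u ∈ S.filter (fun u => γ u = g), |LS (hh u) (m u) (r u)| ≤
      x * (1 / (g : ℝ)) * (2 ^ A / Real.log B ^ A) := by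
    intro g hg
    rw [Finset.mem_Icc] at hg
    have hg0 : (0 : ℝ) < g := by exact_mod_cast hg.1
    have hgT : (g : ℝ) ≤ T * q := by exact_mod_cast hg.2
    -- the height
    have hxg : B ≤ x / g * q + q := by
      have h1 : x < g * (x / g + 1) := by
        have := Nat.lt_mul_div_succ x (by omega : 0 < g)
        exact this
      have h2 : g * (x / g + 1) ≤ (T * q) * (x / g + 1) := Nat.mul_le_mul_right _ hg.2
      have h3 : B * T < T * (q * (x / g + 1)) := by
        calc B * T ≤ x := hxB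
          _ < g * (x / g + 1) := h1
          _ ≤ (T * q) * (x / g + 1) := h2
          _ = T * (q * (x / g + 1)) := by ring
      rw [mul_comm] at h3
      have h4 := Nat.lt_of_mul_lt_mul_left h3
      have h5 : q * (x / g + 1) = x / g * q + q := by ring
      omega
    have hxg1 : 1 ≤ x / g := by
      have h1 : g ≤ x := by
        calc g ≤ T * q := hg.2
          _ ≤ T * B := Nat.mul_le_mul_left _ hqB
          _ = B * T := by ring
          _ ≤ x := hxB
      exact (Nat.one_le_div_iff (by omega)).2 h1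
    have hX : X0 ≤ x / g := by
      rw [Nat.le_div_iff_mul_le (by omega)]
      calc X0 * g ≤ X0 * (T * q) := Nat.mul_le_mul_left _ hg.2
        _ = (q * X0) * T := by ring
        _ ≤ B * T := Nat.mul_le_mul_right _ hX0
        _ ≤ x := hxB
    have hx2 : (x : ℝ) ≤ 2 * g * (x / g : ℕ) := by
      have h1 : x < g * (x / g + 1) := Nat.lt_mul_div_succ x (by omega : 0 < g)
      have h2 : g * (x / g + 1) ≤ 2 * g * (x / g) := by
        calc g * (x / g + 1) ≤ g * (x / g + x / g) := Nat.mul_le_mul_left _ (by omega)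
          _ = 2 * g * (x / g) := by ring
      exact_mod_cast (h1.le.trans h2)
    have hBT : (B : ℝ) * T ≤ x := by exact_mod_cast hxB
    have hxg0 : (0 : ℝ) < (x / g : ℕ) := by exact_mod_cast hxg1
    have hlg1 : Real.log (x / g : ℕ) ≤ 5 * Real.log B := by
      refine le_trans (Real.log_le_log hxg0 ?_) hlogx
      exact_mod_cast Nat.div_le_self x g
    have hlg2 : Real.log B / 2 ≤ Real.log (x / g : ℕ) := by
      have h1 : (B : ℝ) / (2 * q) ≤ (x / g : ℕ) := by
        rw [div_le_iff₀ (by positivity)]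
        have h2 : (B : ℝ) * T ≤ ((x / g : ℕ) * (2 * q)) * T := by
          calc (B : ℝ) * T ≤ x := hBT
            _ ≤ 2 * g * (x / g : ℕ) := hx2
            _ ≤ 2 * (T * q) * (x / g : ℕ) := by gcongr
            _ = ((x / g : ℕ) * (2 * q)) * T := by ring
        exact le_of_mul_le_mul_right h2 (by linarith)
      have h3 : Real.log ((B : ℝ) / (2 * q)) ≤ Real.log (x / g : ℕ) :=
        Real.log_le_log (by positivity) h1
      rw [Real.log_div (by positivity) (by positivity)] at h3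
      linarith
    have hlg0 : 0 ≤ Real.log (x / g : ℕ) := by linarith
    have hDg : ((T * q / g : ℕ) : ℝ) ^ 2 * Real.log (x / g : ℕ) ^ KB ≤ (x / g : ℕ) := by
      have h1 : ((T * q / g : ℕ) : ℝ) ≤ (T * q) / g := by
        have := Nat.cast_div_le (α := ℝ) (m := T * q) (n := g)
        push_cast at this
        exact this
      have h2 : Real.log (x / g : ℕ) ^ KB ≤ (5 * Real.log B) ^ KB := pow_le_pow_left₀ hlg0 hlg1 KB
      have h3 : ((T * q / g : ℕ) : ℝ) ^ 2 * Real.log (x / g : ℕ) ^ KB ≤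
          ((T * q) / g) ^ 2 * (5 * Real.log B) ^ KB :=
        mul_le_mul (pow_le_pow_left₀ (by positivity) h1 2) h2 (by positivity) (by positivity)
      have h4 : (((T : ℝ) * q) / g) ^ 2 * (5 * Real.log B) ^ KB =
          (T / (2 * g ^ 2)) * (2 * (q : ℝ) ^ 2 * 5 ^ KB * (T * Real.log B ^ KB)) := by
        rw [mul_pow]
        field_simp
      have h5 : (T / (2 * g ^ 2) : ℝ) * (2 * (q : ℝ) ^ 2 * 5 ^ KB * (T * Real.log B ^ KB)) ≤
          (T / (2 * g ^ 2)) * B := mul_le_mul_of_nonneg_left hTB (by positivity)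
      have h6 : (T / (2 * g ^ 2) : ℝ) * B ≤ (x / g : ℕ) := by
        rw [div_mul_eq_mul_div, div_le_iff₀ (by positivity)]
        have hg1 : (1 : ℝ) ≤ g := by exact_mod_cast hg.1
        calc (T : ℝ) * B = B * T := by ring
          _ ≤ x := hBT
          _ ≤ 2 * g * (x / g : ℕ) := hx2
          _ ≤ (x / g : ℕ) * (2 * g ^ 2) := by nlinarith
      rw [h4] at h3
      linarith
    have hmain := sum_gcd X0 KB A hBV hX hDg hq (S.filter (fun u => γ u = g)) g m r hh ?_ hg.1 ?_ ?_ ?_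
    · refine hmain.trans ?_
      have h1 : ((x / g : ℕ) : ℝ) ≤ x * (1 / (g : ℝ)) := by
        have := Nat.cast_div_le (α := ℝ) (m := x) (n := g)
        rw [mul_one_div]
        exact this
      have h2 : (Real.log B / 2) ^ A ≤ Real.log (x / g : ℕ) ^ A :=
        pow_le_pow_left₀ (by linarith) hlg2 A
      have h3 : (2 : ℝ) ^ A / Real.log B ^ A = 1 / (Real.log B / 2) ^ A := by
        rw [div_pow]
        field_simp
      rw [h3, mul_one_div]
      exact div_le_div₀ (by positivity) h1 (by positivity) h2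
    · intro u hu
      rw [Finset.mem_filter] at hu
      refine ⟨hm1 u hu.1, ?_⟩
      rw [Nat.le_div_iff_mul_le (by omega)]
      calc m u * g = γ u * m u := by rw [hu.2]; ring
        _ = u * q := hγm u hu.1
        _ ≤ T * q := Nat.mul_le_mul_right q (hS u hu.1).2
    · intro u hu
      rw [Finset.mem_filter] at hu
      rw [← hu.2]
      exact hγm u hu.1
    · intro u hu
      exact hcop u (Finset.mem_filter.1 hu).1
    · intro u hu
      rw [Finset.mem_filter] at hu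
      have := hhx u hu.1
      rwa [hu.2] at this
  refine (Finset.sum_le_sum hone).trans ?_
  rw [← Finset.sum_mul, ← Finset.mul_sum]
  have h1 := harm (T * q)
  have hL : 0 < Real.log B := by linarith
  calc (x : ℝ) * (∑ g ∈ Icc 1 (T * q), (1 / (g : ℝ))) * (2 ^ A / Real.log B ^ A)
      ≤ x * (1 + Real.log (T * q : ℕ)) * (2 ^ A / Real.log B ^ A) := by gcongr
    _ = _ := by ring

theorem t_B4Lu (h : Pool.Agent.N728.QG.S_BVL) : S_B4Lu := by
  obtain ⟨KB, X0, hBV⟩ := h 5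
  refine ⟨KB + 1, ?_⟩
  intro K D q ε hK hD hq hε
  obtain ⟨B0, hB0⟩ := Filter.eventually_atTop.mp
    ((Pool.Agent.N49.QL.log_large (2 * (q : ℝ) ^ 2 * 5 ^ KB)).and
      ((Pool.Agent.N49.QL.log_large (2 * Real.log (2 * q))).and
      ((Pool.Agent.N49.QL.log_large (1536 * (K : ℝ) ^ 2 / ε)).and
        (Pool.Agent.N49.QL.log_large 1))))
  refine ⟨max B0 (max (q * X0) (max q (2 * K))), ?_⟩
  intro B hB T c hc hBT hTB hcB U1 U2 u0 v0 Gv hU hUT hG hG'
  have hBB0 : B0 ≤ B := (le_max_left _ _).trans hB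
  have hBX0 : q * X0 ≤ B := ((le_max_left _ _).trans (le_max_right _ _)).trans hB
  have hBq : q ≤ B :=
    ((le_max_left _ _).trans ((le_max_right _ _).trans (le_max_right _ _))).trans hB
  have hBK : 2 * K ≤ B :=
    ((le_max_right _ _).trans ((le_max_right _ _).trans (le_max_right _ _))).trans hB
  obtain ⟨b1, b2, b3, b4⟩ := hB0 B hBB0
  have hB1 : 1 ≤ B := by omega
  have hTpos : 1 ≤ T := by
    rcases Nat.eq_zero_or_pos T with h | h
    · subst h
      rw [zero_pow (by omega)] at hBT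
      omega
    · exact h
  have hB0' : (0 : ℝ) < B := by exact_mod_cast (by omega : 0 < B)
  have hB1' : (1 : ℝ) ≤ B := by exact_mod_cast hB1
  have hT1' : (1 : ℝ) ≤ T := by exact_mod_cast hTpos
  have hT0' : (0 : ℝ) < T := by linarith
  have hK1 : (1 : ℝ) ≤ K := by exact_mod_cast hK
  have hq1 : (1 : ℝ) ≤ q := by exact_mod_cast hq
  have hL : 0 < Real.log B := by linarith
  classical
  set S := (Ioc U1 U2).filter (fun u => u ≡ u0 [MOD q]) with hS
  have hSmem : ∀ u ∈ S, 1 ≤ u ∧ u ≤ T := by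
    intro u hu
    rw [hS, Finset.mem_filter, Finset.mem_Ioc] at hu
    exact ⟨by omega, by omega⟩
  have hper : ∀ u : ℕ, 1 ≤ u → ∃ γ m r r' : ℕ, 1 ≤ γ ∧ γ * m = u * q ∧ Nat.Coprime r m ∧
      Nat.Coprime r' m ∧
      ∀ V : ℕ, |∑ v ∈ (Icc 1 V).filter (fun v => v ≡ v0 [MOD q]), lam ((u : ℤ) * v + c)| ≤
        |LS ((((u : ℤ) * V + c) / (γ : ℤ)).toNat) m r| +
        |LS ((-(((u : ℤ) * V + c) / (γ : ℤ)) - 1).toNat) m r'| +
        (|LS ((c / (γ : ℤ)).toNat) m r| + |LS ((-(c / (γ : ℤ)) - 1).toNat) m r'|) :=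
    fun u hu => per_u c v0 hu hq
  choose! γ m r r' hγ1 hγm hcop hcop' hV using hper
  have hmax1 : ∀ u : ℕ, ∃ V ∈ range (K * B + 1), ∀ V' ∈ range (K * B + 1),
      |LS ((((u : ℤ) * V' + c) / (γ u : ℤ)).toNat) (m u) (r u)| ≤
      |LS ((((u : ℤ) * V + c) / (γ u : ℤ)).toNat) (m u) (r u)| := by
    intro u
    exact Finset.exists_max_image (range (K * B + 1)) (fun V : ℕ =>
      |LS ((((u : ℤ) * V + c) / (γ u : ℤ)).toNat) (m u) (r u)|) ⟨0, by simp⟩
  choose Vs1 hVs1 hVs1' using hmax1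
  have hmax2 : ∀ u : ℕ, ∃ V ∈ range (K * B + 1), ∀ V' ∈ range (K * B + 1),
      |LS ((-(((u : ℤ) * V' + c) / (γ u : ℤ)) - 1).toNat) (m u) (r' u)| ≤
      |LS ((-(((u : ℤ) * V + c) / (γ u : ℤ)) - 1).toNat) (m u) (r' u)| := by
    intro u
    exact Finset.exists_max_image (range (K * B + 1)) (fun V : ℕ =>
      |LS ((-(((u : ℤ) * V + c) / (γ u : ℤ)) - 1).toNat) (m u) (r' u)|) ⟨0, by simp⟩
  choose Vs2 hVs2 hVs2' using hmax2
  set x : ℕ := K * B * T + c.natAbs with hx
  have habs : ∀ u ∈ S, ∀ V ∈ range (K * B + 1), |(u : ℤ) * V + c| ≤ x := by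
    intro u hu V hVr
    rw [Finset.mem_range] at hVr
    obtain ⟨ha, hb⟩ := hSmem u hu
    have h1 : |(u : ℤ) * V + c| ≤ |(u : ℤ) * V| + |c| := abs_add_le _ _
    have h2 : |(u : ℤ) * V| = u * V := abs_of_nonneg (by positivity)
    have h3 : (u : ℤ) * V ≤ T * (K * B) := by
      apply mul_le_mul (by exact_mod_cast hb) (by exact_mod_cast (by omega : V ≤ K * B))
        (by positivity) (by positivity)
    have h4 : (x : ℤ) = K * B * T + |c| := by
      rw [hx]
      push_cast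
      rfl
    rw [h4]
    linarith
  have habs0 : |c| ≤ x := by
    have h4 : (x : ℤ) = K * B * T + |c| := by
      rw [hx]
      push_cast
      rfl
    rw [h4]
    have : (0 : ℤ) ≤ K * B * T := by positivity
    linarith
  have hxB : B * T ≤ x := by
    rw [hx]
    have h1 : 1 * B * T ≤ K * B * T := Nat.mul_le_mul_right _ (Nat.mul_le_mul_right B hK)
    rw [one_mul] at h1
    omega
  have hTleB : (T : ℝ) ≤ B := by
    refine le_trans ?_ hTB
    exact le_mul_of_one_le_right hT0'.le (one_le_pow₀ b4)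
  have hxreal : (x : ℝ) ≤ 2 * K * (B * T) * Real.log B ^ 2 := by
    rw [hx]
    push_cast
    have h1 : (K : ℝ) * B * T ≤ K * (B * T) * Real.log B ^ 2 := by
      have h2 : (1 : ℝ) ≤ Real.log B ^ 2 := one_le_pow₀ b4
      calc (K : ℝ) * B * T = K * (B * T) * 1 := by ring
        _ ≤ K * (B * T) * Real.log B ^ 2 := by gcongr
    have h3 : ((c.natAbs : ℕ) : ℝ) = |(c : ℝ)| := by
      rw [Nat.cast_natAbs]
      push_cast
      rfl
    have hcB' := hcB
    rw [h3] at hcB'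
    linarith
  have hxpos : (0 : ℝ) < x := by
    have : (B : ℝ) * T ≤ x := by exact_mod_cast hxB
    have : 0 < (B : ℝ) * T := mul_pos hB0' hT0'
    linarith
  have hlogB : Real.log B ≤ B := by
    have := Real.log_le_sub_one_of_pos hB0'
    linarith
  have hx5 : Real.log x ≤ 5 * Real.log B := by
    have h5 : (x : ℝ) ≤ B ^ 5 := by
      have h6 : (2 * (K : ℝ)) ≤ B := by exact_mod_cast hBK
      calc (x : ℝ) ≤ 2 * K * (B * T) * Real.log B ^ 2 := hxreal
        _ ≤ B * (B * B) * (B : ℝ) ^ 2 := by gcongr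
        _ = B ^ 5 := by ring
    calc Real.log x ≤ Real.log ((B : ℝ) ^ 5) := Real.log_le_log hxpos h5
      _ = 5 * Real.log B := by rw [Real.log_pow]; norm_num
  have hDD : 2 * (q : ℝ) ^ 2 * 5 ^ KB * (T * Real.log B ^ KB) ≤ B := by
    calc 2 * (q : ℝ) ^ 2 * 5 ^ KB * (T * Real.log B ^ KB) ≤ Real.log B * (T * Real.log B ^ KB) := by
          gcongr
      _ = T * Real.log B ^ (KB + 1) := by ring
      _ ≤ B := hTB
  have hall : ∀ (r hh : ℕ → ℕ), (∀ u ∈ S, Nat.Coprime (r u) (m u)) → (∀ u ∈ S, hh u ≤ x / γ u) →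
      ∑ u ∈ S, |LS (hh u) (m u) (r u)| ≤
        x * (1 + Real.log (T * q : ℕ)) * 2 ^ 5 / Real.log B ^ 5 := by
    intro r hh hc1 hh1
    exact sum_all X0 KB 5 hBV hq hTpos hB1 hxB hBX0 hBq b4 hx5 hDD b2 S γ m r hh hSmem
      (fun u hu => hγ1 u (hSmem u hu).1) (fun u hu => hγm u (hSmem u hu).1) hc1 hh1
  set hh1 : ℕ → ℕ := fun u => (((u : ℤ) * Vs1 u + c) / (γ u : ℤ)).toNat with hhh1
  set hh2 : ℕ → ℕ := fun u => (-(((u : ℤ) * Vs2 u + c) / (γ u : ℤ)) - 1).toNat with hhh2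
  set hh3 : ℕ → ℕ := fun u => (c / (γ u : ℤ)).toNat with hhh3
  set hh4 : ℕ → ℕ := fun u => (-(c / (γ u : ℤ)) - 1).toNat with hhh4
  have s1 := hall r hh1 (fun u hu => hcop u (hSmem u hu).1) (fun u hu =>
    (height (hγ1 u (hSmem u hu).1) (habs u hu _ (hVs1 u))).1)
  have s2 := hall r' hh2 (fun u hu => hcop' u (hSmem u hu).1) (fun u hu =>
    (height (hγ1 u (hSmem u hu).1) (habs u hu _ (hVs2 u))).2)
  have s3 := hall r hh3 (fun u hu => hcop u (hSmem u hu).1) (fun u hu =>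
    (height (hγ1 u (hSmem u hu).1) habs0).1)
  have s4 := hall r' hh4 (fun u hu => hcop' u (hSmem u hu).1) (fun u hu =>
    (height (hγ1 u (hSmem u hu).1) habs0).2)
  set Em : ℕ → ℝ := fun u => |LS (hh1 u) (m u) (r u)| + |LS (hh2 u) (m u) (r' u)| +
    (|LS (hh3 u) (m u) (r u)| + |LS (hh4 u) (m u) (r' u)|) with hEm
  set Bd : ℝ := x * (1 + Real.log (T * q : ℕ)) * 2 ^ 5 / Real.log B ^ 5 with hBd
  have hEsum : ∑ u ∈ S, Em u ≤ 4 * Bd := by
    simp only [hEm]
    rw [Finset.sum_add_distrib, Finset.sum_add_distrib, Finset.sum_add_distrib]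
    linarith
  have hone : ∀ u ∈ S, |∑ v ∈ (Icc 1 (K * B)).filter (fun v => v ≡ v0 [MOD q]),
      Gv v * lam (((u * v : ℕ) : ℤ) + c)| ≤ (1 + K * Real.log B) * Em u := by
    intro u hu
    obtain ⟨ha, hb⟩ := hSmem u hu
    have h1 := Pool.Agent.N49.QL.abel Gv
      (fun v => if v ≡ v0 [MOD q] then lam ((u : ℤ) * v + c) else 0) (K * B) (Real.log B / B)
      (Em u) (by positivity) hG hG' (by
        intro V hVK
        rw [← Finset.sum_filter]
        refine (hV u ha V).trans ?_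
        have h2 := hVs1' u V (Finset.mem_range.mpr (by omega))
        have h3 := hVs2' u V (Finset.mem_range.mpr (by omega))
        simp only [hEm, hhh1, hhh2, hhh3, hhh4]
        linarith)
    have h2 : (1 + ((K * B : ℕ) : ℝ) * (Real.log B / B)) = 1 + K * Real.log B := by
      push_cast
      field_simp
    rw [h2] at h1
    have h3 : ∑ v ∈ (Icc 1 (K * B)).filter (fun v => v ≡ v0 [MOD q]),
        Gv v * lam (((u * v : ℕ) : ℤ) + c) = ∑ v ∈ Icc 1 (K * B), Gv v *
        (fun v => if v ≡ v0 [MOD q] then lam ((u : ℤ) * v + c) else 0) v := by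
      rw [Finset.sum_filter]
      apply Finset.sum_congr rfl
      intro v _
      simp only
      split_ifs
      · push_cast
        rfl
      · rw [mul_zero]
    rw [h3]
    exact h1
  have htotal : |∑ u ∈ S, ∑ v ∈ (Icc 1 (K * B)).filter (fun v => v ≡ v0 [MOD q]),
      Gv v * lam (((u * v : ℕ) : ℤ) + c)| ≤ (1 + K * Real.log B) * (4 * Bd) := by
    have h1 : 0 ≤ 1 + K * Real.log B := by positivity
    refine (Finset.abs_sum_le_sum_abs _ _).trans ((Finset.sum_le_sum hone).trans ?_)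
    rw [← Finset.mul_sum]
    exact mul_le_mul_of_nonneg_left hEsum h1
  have hlog2 : 1 + K * Real.log B ≤ 2 * K * Real.log B := by nlinarith
  have hlogTq : 1 + Real.log (T * q : ℕ) ≤ 3 * Real.log B := by
    have h1 : Real.log (T * q : ℕ) ≤ Real.log ((B : ℝ) * B) := by
      apply Real.log_le_log
      · push_cast
        positivity
      · push_cast
        have : (q : ℝ) ≤ B := by exact_mod_cast hBq
        gcongr
    rw [Real.log_mul hB0'.ne' hB0'.ne'] at h1
    linarith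
  have hBd2 : Bd ≤ 192 * K * (B * T) / Real.log B ^ 2 := by
    have h1 : Bd ≤ (2 * K * (B * T) * Real.log B ^ 2) * (3 * Real.log B) * 2 ^ 5 / Real.log B ^ 5 := by
      rw [hBd]
      have h0 : 0 ≤ 1 + Real.log (T * q : ℕ) := by
        have := Real.log_natCast_nonneg (T * q)
        linarith
      gcongr
    refine h1.trans (le_of_eq ?_)
    field_simp
    ring
  have hBd0 : 0 ≤ Bd := by
    have h0 : 0 ≤ 1 + Real.log (T * q : ℕ) := by
      have := Real.log_natCast_nonneg (T * q)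
      linarith
    rw [hBd]
    positivity
  have t1 : (1 + K * Real.log B) * (4 * Bd) ≤ ε * (B * T) := by
    have h1 : (1 + K * Real.log B) * (4 * Bd) ≤
        (2 * K * Real.log B) * (4 * (192 * K * (B * T) / Real.log B ^ 2)) := by
      gcongr
    have h2 : (2 * K * Real.log B) * (4 * (192 * K * (B * T) / Real.log B ^ 2)) =
        1536 * K ^ 2 * (B * T) / Real.log B := by
      field_simp
      ring
    rw [h2] at h1
    refine h1.trans ?_
    rw [div_le_iff₀ hL]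
    rw [div_le_iff₀ hε] at b3
    have h10 : 0 < (B : ℝ) * T := mul_pos hB0' hT0'
    have h11 := mul_le_mul_of_nonneg_right b3 h10.le
    linarith
  refine htotal.trans ?_
  rw [zero_div, zero_mul, zero_add]
  exact t1

end

end Pool.Agent.N595.QU
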